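import Pool.Graph.R_seed8.Y45.MON.StmS
import Pool.Graph.R_seed8.Y210.MON.GrCore

/-!
# Extensions over one step of the construction (helper320)
-/

set_option autoImplicit false

namespace Pool.Agent.H320.Rad

open Pool.Agent.TH54.BU Pool.Agent.Y45.MON

/-- extensions `A → G` can be carried over the step `f : G → G'` with prescribed lifts of the
relators -/
def ExtP {G G' : Type} [Group G] [Group G'] (ex : G → ℕ) (Xs : Set G) (f : G →* G') : Prop :=
  ∀ (A : Type) [Group A] (φ : A →* G), Function.Surjective φ →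
    ∀ r : G → A, (∀ x ∈ Xs, φ (r x) = x ^ ex x) →
      (∀ x ∈ Xs, ∀ a : A, φ a ∈ Subgroup.zpowers x → a * r x = r x * a) →
      ∃ K : Subgroup A, K.Normal ∧ (∀ z ∈ K, φ z = 1 → z = 1) ∧ (∀ a ∈ K, f (φ a) = 1) ∧
        (∀ g, f g = 1 → ∃ a ∈ K, φ a = g) ∧ (∀ x ∈ Xs, r x ∈ K) ∧
        ∀ K' : Subgroup A, K'.Normal → (∀ x ∈ Xs, r x ∈ K') → K ≤ K'

theorem ext_of_gr {G : Type} [Group G] {H : GH G} {c θ T : ℕ} (L : LS H c θ T) (ex : G → ℕ)
    (hn : ∀ i, 40 * L.thr + 1 ≤ ex (L.x i)) {G' : Type} [Group G'] (f : G →* G')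
    (hf : f.ker = Subgroup.normalClosure (Set.range fun i => L.x i ^ ex (L.x i))) :
    ExtP ex (Set.range L.x) f := by
  intro A _ φ hφ r hr hc
  have hker : ∀ g, f g = 1 ↔ g ∈ Subgroup.normalClosure (Set.range fun i => L.x i ^ ex (L.x i)) := by
    intro g
    rw [← hf, MonoidHom.mem_ker]
  have hmap : (Subgroup.normalClosure (Set.range fun i => r (L.x i))).map φ =
      Subgroup.normalClosure (Set.range fun i => L.x i ^ ex (L.x i)) := by
    rw [Subgroup.map_normalClosure _ φ hφ]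
    congr 1
    ext g
    constructor
    · rintro ⟨_, ⟨i, rfl⟩, rfl⟩
      exact ⟨i, (hr _ ⟨i, rfl⟩).symm⟩
    · rintro ⟨i, rfl⟩
      exact ⟨_, ⟨i, rfl⟩, hr _ ⟨i, rfl⟩⟩
  refine ⟨Subgroup.normalClosure (Set.range fun i => r (L.x i)),
    Subgroup.normalClosure_normal, ?_, ?_, ?_, ?_, ?_⟩
  · intro z hz h1
    by_contra hne
    obtain ⟨i, u, hiu⟩ := Pool.Agent.Y210.MON.gr_ext L φ hφ (n := fun i => ex (L.x i)) hn
      (fun i => r (L.x i)) (fun i => hr _ ⟨i, rfl⟩)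
      (fun i a ha => hc _ ⟨i, rfl⟩ a ha) hz hne 1
    rw [h1, one_mul, L.wf_s_self] at hiu
    have := hn i
    rw [abs_zero] at hiu
    omega
  · intro a ha
    rw [hker, ← hmap]
    exact ⟨a, ha, rfl⟩
  · intro g hg
    rw [hker, ← hmap] at hg
    obtain ⟨a, ha, rfl⟩ := hg
    exact ⟨a, ha, rfl⟩
  · rintro _ ⟨i, rfl⟩
    exact Subgroup.subset_normalClosure ⟨i, rfl⟩
  · intro K' hK' h
    have : K'.Normal := hK'
    apply Subgroup.normalClosure_le_normal
    rintro _ ⟨i, rfl⟩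
    exact h _ ⟨i, rfl⟩

end Pool.Agent.H320.Rad
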