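import Pool.Agent.H320.Rad.Seq
import Pool.Graph.R_seed8.Y872.MON.LimB

/-!
# Central extensions of the groups of the sequence (helper320)
-/

set_option autoImplicit false

namespace Pool.Agent.H320.Rad

open Pool.Agent.TH54.BU Pool.Agent.Y45.MON Pool.Agent.Y872.MON

theorem map_vv {r : ℕ} (w : WP r) {G G' : Type} [Group G] [Group G'] (φ : G →* G') (j : Fin r)
    (a b : G) : φ (vv w j a b) = vv w j (φ a) (φ b) := by
  unfold vv
  rw [map_Wj, map_X1]

theorem conj_vv {r : ℕ} (w : WP r) {G : Type} [Group G] (u : G) (j : Fin r) (a b : G) :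
    vv w j (u * a * u⁻¹) (u * b * u⁻¹) = u * vv w j a b * u⁻¹ := by
  have := map_vv w (MulAut.conj u).toMonoidHom j a b
  simpa using this.symm

theorem vv_comm {r : ℕ} (w : WP r) (j : Fin r) {G : Type} [Group G] (a b : G)
    (h : a * b = b * a) : vv w j a b = a ^ w.δ j * a⁻¹ := by
  have h1 : Commute a b := h
  have h2 : Commute a (P0 w.M1 a b) := by
    unfold P0
    exact (((Commute.refl a).mul_right h1).mul_right (Commute.pow_right (Commute.refl a) _)).mul_right
      h1.inv_right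
  have h3 : X1 w.M1 w.m2 a b = 1 := by
    unfold X1
    rw [(h2.pow_right w.m2).eq, mul_inv_cancel_right, mul_inv_cancel]
  unfold vv Wj
  rw [h3]
  simp only [one_pow, mul_one]
  have h4 : Commute b a⁻¹ := h1.symm.inv_right
  rw [mul_assoc (a ^ w.δ j) b a⁻¹, h4.eq, ← mul_assoc, mul_inv_cancel_right]

/-- multiplication of elements by central elements, as a homomorphism -/
def mulCen (A : Type) [Group A] : A × Subgroup.center A →* A where
  toFun p := p.1 * p.2
  map_one' := by simp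
  map_mul' p q := by
    have h : (p.2 : A) * q.1 = q.1 * p.2 := (Subgroup.mem_center_iff.1 p.2.2 q.1).symm
    calc p.1 * q.1 * ((p.2 : A) * q.2) = p.1 * (q.1 * p.2) * q.2 := by group
      _ = p.1 * p.2 * (q.1 * q.2) := by rw [← h]; group

theorem vv_mulCen {r : ℕ} (w : WP r) (j : Fin r) {A : Type} [Group A] (a b : A)
    (z t : Subgroup.center A) :
    vv w j (a * z) (b * t) = vv w j a b * (z ^ w.δ j * z⁻¹ : Subgroup.center A) := by
  have h1 := map_vv w (mulCen A) j (a, z) (b, t)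
  have h2 : vv w j (a, z) (b, t) = (vv w j a b, vv w j z t) := by
    apply Prod.ext
    · exact map_vv w (MonoidHom.fst A (Subgroup.center A)) j (a, z) (b, t)
    · exact map_vv w (MonoidHom.snd A (Subgroup.center A)) j (a, z) (b, t)
  have hzt : z * t = t * z := Subtype.ext (Subgroup.mem_center_iff.1 t.2 z)
  rw [h2, vv_comm w j z t hzt] at h1
  exact h1.symm

theorem vv_cen {r : ℕ} (w : WP r) (j : Fin r) (hj : w.δ j = 1) {A : Type} [Group A]
    (a b z t : A) (hz : ∀ g, g * z = z * g) (ht : ∀ g, g * t = t * g) :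
    vv w j (a * z) (b * t) = vv w j a b := by
  have h := vv_mulCen w j a b ⟨z, Subgroup.mem_center_iff.2 hz⟩ ⟨t, Subgroup.mem_center_iff.2 ht⟩
  rw [hj, pow_one, mul_inv_cancel] at h
  simpa using h

/-- a central extension with kernel `Z` and with canonical lifts `S` of some elements -/
structure EX (r : ℕ) (Z : Type) [CommGroup Z] (B : Type) [Group B] : Type 1 where
  A : Type
  [grp : Group A]
  φ : A →* B
  ι : Z →* A
  S : A → Fin r → Prop
  sur : Function.Surjective φ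
  inj : Function.Injective ι
  cen : ∀ z a, a * ι z = ι z * a
  ker : ∀ a, φ a = 1 ↔ ∃ z, ι z = a
  Su : ∀ a a' j j', S a j → S a' j' → φ a = φ a' → a = a'
  Si : ∀ a a' j j', S a j → S a' j' → φ a' ≠ (φ a)⁻¹
  Sc : ∀ a u j, S a j → S (u * a * u⁻¹) j

instance {r : ℕ} {Z : Type} [CommGroup Z] {B : Type} [Group B] (e : EX r Z B) : Group e.A :=
  e.grp

/-- the trivial extension -/
def EX.triv (r : ℕ) (Z : Type) [CommGroup Z] (B : Type) [Group B] : EX r Z B where
  A := B × Z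
  φ := MonoidHom.fst B Z
  ι := MonoidHom.inr B Z
  S := fun _ _ => False
  sur := fun b => ⟨(b, 1), rfl⟩
  inj := fun z z' h => (Prod.ext_iff.1 h).2
  cen := fun z a => by
    apply Prod.ext
    · simp
    · simp [mul_comm]
  ker := fun a => by
    constructor
    · intro h
      exact ⟨a.2, Prod.ext h.symm rfl⟩
    · rintro ⟨z, rfl⟩
      rfl
  Su := fun _ _ _ _ h => h.elim
  Si := fun _ _ _ _ h => h.elim
  Sc := fun _ _ _ h => h

namespace EX

variable {r : ℕ} {Z : Type} [CommGroup Z] {B : Type} [Group B] (e : EX r Z B)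

theorem eq_mul {a b : e.A} (h : e.φ a = e.φ b) : ∃ z, a = b * e.ι z := by
  obtain ⟨z, hz⟩ := (e.ker (b⁻¹ * a)).1 (by rw [map_mul, map_inv, h, inv_mul_cancel])
  exact ⟨z, by rw [hz, mul_inv_cancel_left]⟩

theorem φι (z : Z) : e.φ (e.ι z) = 1 := (e.ker _).2 ⟨z, rfl⟩

theorem vv_eq (w : WP r) (j : Fin r) (hj : w.δ j = 1) {a b a' b' : e.A} (ha : e.φ a = e.φ a')
    (hb : e.φ b = e.φ b') : vv w j a b = vv w j a' b' := by
  obtain ⟨z, rfl⟩ := e.eq_mul ha
  obtain ⟨t, rfl⟩ := e.eq_mul hb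
  exact vv_cen w j hj _ _ _ _ (e.cen z) (e.cen t)

/-- lifts of commuting elements -/
theorem comm_pow {y : e.A} {n : ℕ} {z : Z} {a : e.A}
    (h : e.φ a ∈ Subgroup.zpowers (e.φ y)) : a * (y ^ n * e.ι z) = y ^ n * e.ι z * a := by
  obtain ⟨k, hk⟩ := h
  have hk' : e.φ y ^ k = e.φ a := hk
  obtain ⟨t, ht⟩ := e.eq_mul (a := a) (b := y ^ k) (by rw [map_zpow]; exact hk'.symm)
  have c1 : Commute (y ^ k) (y ^ n) := ((Commute.refl y).zpow_left k).pow_right n
  have c2 : ∀ (z : Z) (a : e.A), Commute a (e.ι z) := fun z a => e.cen z a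
  rw [ht]
  exact (Commute.mul_left (Commute.mul_right c1 (c2 _ _))
    (Commute.mul_right (c2 _ _).symm (c2 _ _))).eq

end EX

/-- one step for central extensions -/
theorem EX.next {r : ℕ} {w : WP r} {R0 : ℕ} {G G' : Type} [Group G] [Group G'] {ex : G → ℕ}
    {Xs : Set G} {H : GH G} {H' : GH G'} {f : G →* G'} (hX : StepX w R0 ex Xs H H' f)
    (hE : ExtP ex Xs f) {Z : Type} [CommGroup Z] (e : EX r Z G) (val : e.A → Z) :
    ∃ (e' : EX r Z G') (F : e.A →* e'.A), Function.Surjective F ∧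
      (∀ a, e'.φ (F a) = f (e.φ a)) ∧ (∀ z, F (e.ι z) = e'.ι z) ∧
      (∀ a j, e.S a j → e.φ a ∈ Xs → F a ^ ex (e.φ a) = e'.ι (val a)) ∧
      (∀ a j, e.S a j → (e.φ a)⁻¹ ∈ Xs → F a ^ ex (e.φ a)⁻¹ = e'.ι (val a)) ∧
      (∀ (a b : e.A) (j : Fin r), w.δ j = 1 →
        Gd H (e.φ a) (e.φ b) (X1 w.M1 w.m2 (e.φ a) (e.φ b)) → e'.S (F (vv w j a b)) j) := by
  classical
  -- the relators
  have hr : ∀ x : G, ∃ (y : e.A) (z : Z), e.φ y = x ∧
      (∀ a j, e.S a j → e.φ a = x → y = a ∧ z = (val a)⁻¹) ∧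
      (∀ a j, e.S a j → e.φ a = x⁻¹ → y = a⁻¹ ∧ z = val a) := by
    intro x
    by_cases h1 : ∃ a j, e.S a j ∧ e.φ a = x
    · obtain ⟨a, j, ha, hx⟩ := h1
      refine ⟨a, (val a)⁻¹, hx, ?_, ?_⟩
      · intro a' j' ha' hx'
        have := e.Su a a' j j' ha ha' (hx.trans hx'.symm)
        subst this
        exact ⟨rfl, rfl⟩
      · intro a' j' ha' hx'
        exact absurd (hx'.trans (by rw [hx])) (e.Si a a' j j' ha ha')
    · by_cases h2 : ∃ a j, e.S a j ∧ e.φ a = x⁻¹
      · obtain ⟨a, j, ha, hx⟩ := h2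
        refine ⟨a⁻¹, val a, by rw [map_inv, hx, inv_inv], ?_, ?_⟩
        · intro a' j' ha' hx'
          exact absurd ⟨a', j', ha', hx'⟩ h1
        · intro a' j' ha' hx'
          have := e.Su a a' j j' ha ha' (hx.trans hx'.symm)
          subst this
          exact ⟨rfl, rfl⟩
      · obtain ⟨y, hy⟩ := e.sur x
        exact ⟨y, 1, hy, fun a j ha hx => absurd ⟨a, j, ha, hx⟩ h1,
          fun a j ha hx => absurd ⟨a, j, ha, hx⟩ h2⟩
  choose y zz hy hy1 hy2 using hr
  obtain ⟨K, hKn, hK1, hK2, hK3, hK4, -⟩ := hE e.A e.φ e.sur (fun x => y x ^ ex x * e.ι (zz x))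
    (fun x _ => by rw [map_mul, map_pow, hy, e.φι, mul_one])
    (fun x _ a ha => e.comm_pow (by rw [hy]; exact ha))
  have hker : K ≤ (f.comp e.φ).ker := fun a ha => by
    rw [MonoidHom.mem_ker]
    exact hK2 a ha
  let φ' : e.A ⧸ K →* G' := QuotientGroup.lift K (f.comp e.φ) (fun a ha => hK2 a ha)
  let F : e.A →* e.A ⧸ K := QuotientGroup.mk' K
  have hF : Function.Surjective F := QuotientGroup.mk'_surjective K
  have hφF : ∀ a, φ' (F a) = f (e.φ a) := fun a => rfl
  have hF1 : ∀ a, F a = 1 ↔ a ∈ K := fun a => QuotientGroup.eq_one_iff a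
  have hcen : ∀ (z : Z) (a : e.A ⧸ K), a * F (e.ι z) = F (e.ι z) * a := by
    intro z a
    obtain ⟨a, rfl⟩ := hF a
    rw [← map_mul, e.cen, map_mul]
  have hkr : ∀ a, φ' a = 1 ↔ ∃ z, F (e.ι z) = a := by
    intro a
    obtain ⟨a, rfl⟩ := hF a
    rw [hφF]
    constructor
    · intro h
      obtain ⟨b, hb, hb2⟩ := hK3 _ h
      obtain ⟨z, hz⟩ := e.eq_mul hb2.symm
      exact ⟨z, by rw [hz, map_mul, (hF1 b).2 hb, one_mul]⟩
    · rintro ⟨z, hz⟩
      rw [← hφF, ← hz, hφF, e.φι, map_one]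
  have heq : ∀ {a b : e.A ⧸ K}, φ' a = φ' b → ∃ z, a = b * F (e.ι z) := by
    intro a b h
    obtain ⟨z, hz⟩ := (hkr (b⁻¹ * a)).1 (by rw [map_mul, map_inv, h, inv_mul_cancel])
    exact ⟨z, by rw [hz, mul_inv_cancel_left]⟩
  have hvv : ∀ (j : Fin r) (a b : e.A), e.φ (vv w j a b) = Wj w j (e.φ a) (e.φ b)
      (X1 w.M1 w.m2 (e.φ a) (e.φ b)) := fun j a b => map_vv w e.φ j a b
  let e' : EX r Z G' :=
    { A := e.A ⧸ K
      φ := φ'
      ι := F.comp e.ι
      S := fun q j => w.δ j = 1 ∧ ∃ (a b : e.A) (u : e.A ⧸ K),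
        Gd H (e.φ a) (e.φ b) (X1 w.M1 w.m2 (e.φ a) (e.φ b)) ∧ q = u * F (vv w j a b) * u⁻¹
      sur := by
        intro g
        obtain ⟨g, rfl⟩ := hX.surj g
        obtain ⟨a, rfl⟩ := e.sur g
        exact ⟨F a, hφF a⟩
      inj := by
        rw [injective_iff_map_eq_one]
        intro z hz
        have h1 : e.ι z ∈ K := (hF1 _).1 hz
        exact (injective_iff_map_eq_one e.ι).1 e.inj z (hK1 _ h1 (e.φι z))
      cen := hcen
      ker := hkr
      Su := by
        rintro q q' j j' ⟨hj, a, b, u, hg, rfl⟩ ⟨hj', a', b', u', hg', rfl⟩ h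
        obtain ⟨u, rfl⟩ := hF u
        obtain ⟨u', rfl⟩ := hF u'
        simp only [map_mul, map_inv, hφF, hvv] at h
        have h1 : (f (e.φ (u'⁻¹ * u))) * f (Wj w j (e.φ a) (e.φ b)
            (X1 w.M1 w.m2 (e.φ a) (e.φ b))) * (f (e.φ (u'⁻¹ * u)))⁻¹ =
            f (Wj w j' (e.φ a') (e.φ b') (X1 w.M1 w.m2 (e.φ a') (e.φ b'))) := by
          have h2 : f (Wj w j' (e.φ a') (e.φ b') (X1 w.M1 w.m2 (e.φ a') (e.φ b'))) =
              (f (e.φ u'))⁻¹ * (f (e.φ u) * f (Wj w j (e.φ a) (e.φ b)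
                (X1 w.M1 w.m2 (e.φ a) (e.φ b))) * (f (e.φ u))⁻¹) * f (e.φ u') := by
            rw [h]
            group
          rw [h2]
          simp only [map_mul, map_inv]
          group
        obtain ⟨-, -, hz, -, hw⟩ := hX.wr _ _ _ hg j
        obtain ⟨rfl, g, hga, hgb⟩ := (hw _ _ _ hg' j' _).1 h1
        obtain ⟨g, rfl⟩ := e.sur g
        -- the conjugated pair
        have h3 : vv w j a' b' = g * vv w j a b * g⁻¹ := by
          rw [← conj_vv]
          exact e.vv_eq w j hj (by rw [hga]; simp) (by rw [hgb]; simp)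
        have h4 : f (Wj w j (e.φ a') (e.φ b') (X1 w.M1 w.m2 (e.φ a') (e.φ b'))) =
            f (e.φ g) * f (Wj w j (e.φ a) (e.φ b) (X1 w.M1 w.m2 (e.φ a) (e.φ b))) *
              (f (e.φ g))⁻¹ := by
          rw [← hvv, ← hvv, h3]
          simp only [map_mul, map_inv]
        obtain ⟨t, ht⟩ := hz (f (e.φ (g⁻¹ * (u'⁻¹ * u)))) (by
          rw [h4] at h1
          have h5 : f (e.φ (g⁻¹ * (u'⁻¹ * u))) = (f (e.φ g))⁻¹ * f (e.φ (u'⁻¹ * u)) := by
            simp only [map_mul, map_inv]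
          have h6 := eq_mul_of_mul_inv_eq h1
          rw [h5, mul_assoc, h6]
          group)
        rw [← hvv, ← map_zpow, ← map_zpow, ← hφF, ← hφF] at ht
        obtain ⟨z, hz2⟩ := heq ht
        have h7 : F u = F u' * F g * F (vv w j a b) ^ t * F (e.ι z) := by
          have h8 : F (g⁻¹ * (u'⁻¹ * u)) = (F g)⁻¹ * ((F u')⁻¹ * F u) := by
            simp only [map_mul, map_inv]
          rw [h8, map_zpow] at hz2
          have h9 : F u = F u' * F g * ((F g)⁻¹ * ((F u')⁻¹ * F u)) := by group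
          rw [h9, hz2]
          group
        rw [h3, map_mul, map_mul, map_inv]
        have h10 : F u * F (vv w j a b) * (F u)⁻¹ =
            F u' * (F g * F (vv w j a b) * (F g)⁻¹) * (F u')⁻¹ := by
          have c1 : Commute (F (vv w j a b)) (F (vv w j a b) ^ t * F (e.ι z)) :=
            (Commute.self_zpow _ _).mul_right (hcen z _)
          have h11 : F u = F u' * F g * (F (vv w j a b) ^ t * F (e.ι z)) := by
            rw [h7]
            group
          rw [h11]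
          generalize F (vv w j a b) ^ t * F (e.ι z) = s at c1
          have h12 : s * F (vv w j a b) * s⁻¹ = F (vv w j a b) := by
            rw [← c1.eq, mul_inv_cancel_right]
          calc F u' * F g * s * F (vv w j a b) * (F u' * F g * s)⁻¹ =
              F u' * F g * (s * F (vv w j a b) * s⁻¹) * (F u' * F g)⁻¹ := by group
            _ = _ := by rw [h12]; group
        exact h10
      Si := by
        rintro q q' j j' ⟨hj, a, b, u, hg, rfl⟩ ⟨hj', a', b', u', hg', rfl⟩ h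
        obtain ⟨u, rfl⟩ := hF u
        obtain ⟨u', rfl⟩ := hF u'
        simp only [map_mul, map_inv, hφF, hvv] at h
        refine ((hX.wr _ _ _ hg j).2.2.2.2 _ _ _ hg' j' (f (e.φ (u'⁻¹ * u)))).2 ?_
        have h2 : (f (Wj w j' (e.φ a') (e.φ b') (X1 w.M1 w.m2 (e.φ a') (e.φ b'))))⁻¹ =
            (f (e.φ u'))⁻¹ * (f (e.φ u') * f (Wj w j' (e.φ a') (e.φ b')
              (X1 w.M1 w.m2 (e.φ a') (e.φ b'))) * (f (e.φ u'))⁻¹)⁻¹ * f (e.φ u') := by
          group
        rw [h2, h]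
        simp only [map_mul, map_inv]
        group
      Sc := by
        rintro q v j ⟨hj, a, b, u, hg, rfl⟩
        exact ⟨hj, a, b, v * u, hg, by group⟩ }
  refine ⟨e', F, hF, hφF, fun z => rfl, ?_, ?_, ?_⟩
  · intro a j ha hx
    obtain ⟨h1, h2⟩ := hy1 _ a j ha rfl
    have h3 := hK4 _ hx
    rw [h1, h2] at h3
    have h4 := (hF1 _).2 h3
    rw [map_mul, map_pow, map_inv, map_inv, mul_inv_eq_one] at h4
    exact h4
  · intro a j ha hx
    obtain ⟨h1, h2⟩ := hy2 (e.φ a)⁻¹ a j ha (by rw [inv_inv])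
    have h3 := hK4 _ hx
    rw [h1, h2] at h3
    have h4 := (hF1 _).2 h3
    rw [map_mul, map_pow, map_inv, inv_pow, inv_mul_eq_one] at h4
    exact h4
  · intro a b j hj hg
    exact ⟨hj, a, b, 1, hg, by rw [one_mul, inv_one, mul_one]⟩

end Pool.Agent.H320.Rad
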