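import Pool.Agent.H320.Rad.Lift

/-!
# The limit of the central extensions (helper320)
-/

set_option autoImplicit false

namespace Pool.Agent.H320.Rad

open Pool.Agent.TH54.BU Pool.Agent.Y45.MON Pool.Agent.Y872.MON

section seq

variable {r : ℕ} {w : WP r} {R0 N : ℕ} {C : Type} {Φ : Fin r → C → C → C}
  {ε : Fin r → C → C → ℕ} {G : ℕ → Type} [∀ n, Group (G n)] {H : ∀ n, GH (G n)}
  {f : ∀ n, G n →* G (n + 1)} {col : ∀ n, G n → C} {Mk : ∀ n, G n → Fin r → C → C → Prop}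
  {Xs : ∀ n, Set (G n)}

/-- the extensions over the sequence -/
structure SE (w : WP r) (N : ℕ) (ε : Fin r → C → C → ℕ) (H : ∀ n, GH (G n))
    (f : ∀ n, G n →* G (n + 1))
    (Mk : ∀ n, G n → Fin r → C → C → Prop) (Xs : ∀ n, Set (G n)) {Z : Type} [CommGroup Z]
    (val : ∀ n, G n → Z)
    (e : ∀ n, EX r Z (G n)) (F : ∀ n, (e n).A →* (e (n + 1)).A) : Prop where
  sur : ∀ n, Function.Surjective (F n)
  φF : ∀ n a, (e (n + 1)).φ (F n a) = f n ((e n).φ a)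
  ιF : ∀ n z, F n ((e n).ι z) = (e (n + 1)).ι z
  pos : ∀ n a j, (e n).S a j → (e n).φ a ∈ Xs n →
    F n a ^ exo N ε (Mk n) ((e n).φ a) = (e (n + 1)).ι (val n ((e n).φ a))
  neg : ∀ n a j, (e n).S a j → ((e n).φ a)⁻¹ ∈ Xs n →
    F n a ^ exo N ε (Mk n) ((e n).φ a)⁻¹ = (e (n + 1)).ι (val n ((e n).φ a))
  vvS : ∀ n (a b : (e n).A) (j : Fin r), w.δ j = 1 →
    Gd (H n) ((e n).φ a) ((e n).φ b) (X1 w.M1 w.m2 ((e n).φ a) ((e n).φ b)) →
    (e (n + 1)).S (F n (vv w j a b)) j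

theorem exists_SE (hS : Sq w R0 N Φ ε G H f col Mk Xs)
    (hE : ∀ n, ExtP (exo N ε (Mk n)) (Xs n) (f n)) {Z : Type} [CommGroup Z]
    (val : ∀ n, G n → Z) :
    ∃ (e : ∀ n, EX r Z (G n)) (F : ∀ n, (e n).A →* (e (n + 1)).A),
      SE w N ε H f Mk Xs val e F := by
  choose nx Fx h1 h2 h3 h4 h5 h6 using fun (n : ℕ) (e : EX r Z (G n)) =>
    EX.next (hS.st n) (hE n) e (fun a => val n (e.φ a))
  let e : ∀ n, EX r Z (G n) := fun n => Nat.rec (EX.triv r Z (G 0)) (fun n e => nx n e) n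
  exact ⟨e, fun n => Fx n (e n), fun n => h1 n (e n), fun n => h2 n (e n), fun n => h3 n (e n),
    fun n => h4 n (e n), fun n => h5 n (e n), fun n => h6 n (e n)⟩

open Classical in
/-- the values given by the marks -/
noncomputable def valM {Z : Type} [CommGroup Z] (Mk : ∀ n, G n → Fin r → C → C → Prop)
    (κ : Fin r → C → C → Z) (n : ℕ) (g : G n) : Z :=
  if h : ∃ m : Fin r × C × C, Mk n g m.1 m.2.1 m.2.2 then
    κ h.choose.1 h.choose.2.1 h.choose.2.2 else 1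

theorem valM_eq {Z : Type} [CommGroup Z] {κ : Fin r → C → C → Z}
    (hS : Sq w R0 N Φ ε G H f col Mk Xs) {n : ℕ} {g : G n} {j : Fin r} {c c' : C}
    (h : Mk n g j c c') : valM Mk κ n g = κ j c c' := by
  have h1 : ∃ m : Fin r × C × C, Mk n g m.1 m.2.1 m.2.2 := ⟨(j, c, c'), h⟩
  unfold valM
  rw [dif_pos h1]
  obtain ⟨e1, e2, e3⟩ := hS.mku n g _ _ _ _ _ _ h1.choose_spec h
  rw [e1, e2, e3]

end seq

section lim

/-- what dies stays dead -/
theorem dies_one {G : ℕ → Type} [∀ n, Group (G n)] {f : ∀ n, G n →* G (n + 1)} {L : Type}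
    [Group L] {π : ∀ n, G n →* L} (hc : ∀ n g, π (n + 1) (f n g) = π n g) {n : ℕ} {g : G n}
    (h : Dies f n g) : π n g = 1 := by
  induction h with
  | one n => exact map_one _
  | step n g _ ih => rw [← hc, ih]

theorem dies_map {A G : ℕ → Type} [∀ n, Group (A n)] [∀ n, Group (G n)]
    {F : ∀ n, A n →* A (n + 1)} {f : ∀ n, G n →* G (n + 1)} (ψ : ∀ n, A n →* G n)
    (hψ : ∀ n a, ψ (n + 1) (F n a) = f n (ψ n a)) {n : ℕ} {a : A n} (h : Dies F n a) :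
    Dies f n (ψ n a) := by
  induction h with
  | one n => rw [map_one]; exact .one _
  | step n a _ ih => exact .step _ _ (by rw [← hψ]; exact ih)

theorem dies_inj {A : ℕ → Type} [∀ n, Group (A n)] {F : ∀ n, A n →* A (n + 1)} {Z : Type}
    [Group Z] (ι : ∀ n, Z →* A n) (hι : ∀ n z, F n (ι n z) = ι (n + 1) z)
    (hinj : ∀ n, Function.Injective (ι n)) {n : ℕ} {a : A n} (h : Dies F n a) :
    ∀ z, a = ι n z → z = 1 := by
  induction h with
  | one n =>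
    intro z hz
    exact (injective_iff_map_eq_one (ι n)).1 (hinj n) z hz.symm
  | step n a _ ih =>
    intro z hz
    exact ih z (by rw [hz, hι])

end lim

variable {r : ℕ} {w : WP r} {R0 N : ℕ} {C : Type} {Φ : Fin r → C → C → C}
  {ε : Fin r → C → C → ℕ} {G : ℕ → Type} [∀ n, Group (G n)] {H : ∀ n, GH (G n)}
  {f : ∀ n, G n →* G (n + 1)} {col : ∀ n, G n → C} {Mk : ∀ n, G n → Fin r → C → C → Prop}
  {Xs : ∀ n, Set (G n)} {L : Type} [Group L] {π : ∀ n, G n →* L}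

/-- copy of `LD.main`, the third element being `X1` -/
theorem main1 (D : LD w R0 N Φ ε G H f col Mk Xs L π) (A B : L) (hAB : A * B ≠ B * A) :
    ∃ (n : ℕ) (h0 : L) (a b : G (n + 1)),
      Gd (H (n + 1)) a b (X1 w.M1 w.m2 a b) ∧ IsOfFinOrder a ∧
      π (n + 1) a = h0 * A * h0⁻¹ ∧ π (n + 1) b = h0 * B * h0⁻¹ ∧
      IsOfFinOrder (f (n + 1) b) := by
  let S : ℕ → Prop := fun m => ∃ (a b : G m) (h : L), π m a = h * A * h⁻¹ ∧
    π m b = h * B * h⁻¹ ∧ IsOfFinOrder a ∧ IsOfFinOrder (P0 w.M1 a b)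
  have hS : ∃ m, S m := by
    obtain ⟨a, ha⟩ := D.sur 0 A
    obtain ⟨b, hb⟩ := D.sur 0 B
    obtain ⟨m, a', b', h1, h2, h3, h4⟩ := D.ev (max ((H 0).len a) ((H 0).len (P0 w.M1 a b))) 0
      a b (le_max_left _ _) (le_max_right _ _)
    exact ⟨m, a', b', 1, by simp [h1, ha], by simp [h2, hb], h3, h4⟩
  classical
  obtain ⟨m, hm, hmin⟩ : ∃ m, S m ∧ ∀ k < m, ¬ S k :=
    ⟨Nat.find hS, Nat.find_spec hS, fun k hk => Nat.find_min hS hk⟩
  obtain ⟨a', b', h, h1, h2, h3, h4⟩ := hm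
  have hA : A ≠ 1 := by rintro rfl; simp at hAB
  have hB : B ≠ 1 := by rintro rfl; simp at hAB
  cases m with
  | zero =>
    exfalso
    have h5 : a' = 1 := D.sq.free a' h3
    rw [h5, map_one] at h1
    exact hA (conj_eq_one_iff.1 h1.symm)
  | succ n =>
    have hab : a' * b' ≠ b' * a' := by
      intro e
      apply hAB
      have e1 := congrArg (π (n + 1)) e
      rw [map_mul, map_mul, h1, h2] at e1
      have e2 : h * (A * B) * h⁻¹ = h * (B * A) * h⁻¹ := by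
        rw [show h * (A * B) * h⁻¹ = h * A * h⁻¹ * (h * B * h⁻¹) by group, e1]
        group
      exact mul_left_cancel (mul_right_cancel e2)
    obtain ⟨a1, b1, k, h5, h6, h7, h8, h9⟩ := (D.sq.st n).pb a' b' h3 hab h4
    have e1 : π (n + 1) (f n a1) = (π (n + 1) k * h) * A * (π (n + 1) k * h)⁻¹ := by
      rw [h8, map_mul, map_mul, map_inv, h1]
      group
    have e2 : π (n + 1) (f n b1) = (π (n + 1) k * h) * B * (π (n + 1) k * h)⁻¹ := by
      rw [h9, map_mul, map_mul, map_inv, h2]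
      group
    have ha1 : a1 ≠ 1 := by
      rintro rfl
      rw [map_one, map_one] at e1
      exact hA (conj_eq_one_iff.1 e1.symm)
    have hb1 : b1 ≠ 1 := by
      rintro rfl
      rw [map_one, map_one] at e2
      exact hB (conj_eq_one_iff.1 e2.symm)
    have h10 : ¬ IsOfFinOrder (P0 w.M1 a1 b1) := fun h10 => hmin n (by omega)
      ⟨a1, b1, π (n + 1) k * h, (D.cmp n a1).symm.trans e1, (D.cmp n b1).symm.trans e2, h5, h10⟩
    have h11 : IsOfFinOrder (f n (P0 w.M1 a1 b1)) := by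
      rw [map_P0, h8, h9, conj_P0]
      exact cf _ _ h4
    have l1 : (H n).len a1 ≤ 1 := by simpa using h6 1
    have l2 : (H n).len (a1 ^ 2) ≤ 1 := by
      have := h6 2
      rwa [zpow_ofNat] at this
    obtain ⟨x1, x2, x3⟩ := (D.sq.st n).xa a1 b1 h5 h6 h7 h10 h11
    have l3 : (H (n + 1)).len (f n b1) ≤ 1 := (D.sq.st n).len0 _ h7
    rw [map_X1] at x1 x2 x3
    refine ⟨n, π (n + 1) k * h, f n a1, f n b1, ⟨?_, l3, x2, x1, ?_,
      ?_, ?_⟩, MonoidHom.isOfFinOrder _ h5, e1, e2, (D.sq.st (n + 1)).kill _ l3⟩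
    · exact (D.sq.st n).len0 _ (l1.trans D.R1)
    · exact x3 a1 (l1.trans D.R1) ha1
    · have := x3 (a1 ^ 2) (l2.trans D.R1) (LD.sq_ne D.N3 (D.sq.tor n a1 h5) ha1)
      rwa [map_pow] at this
    · exact x3 b1 h7 hb1

/-- copy of the beginning of `LD.mainV` -/
theorem main2 (D : LD w R0 N Φ ε G H f col Mk Xs L π) (j : Fin r) (A B : L)
    (hAB : A * B ≠ B * A) : ∃ (n : ℕ) (h0 : L) (a b : G (n + 1)) (x u : G (n + 2)) (k : ℤ),
      Gd (H (n + 1)) a b (X1 w.M1 w.m2 a b) ∧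
      π (n + 1) a = h0 * A * h0⁻¹ ∧ π (n + 1) b = h0 * B * h0⁻¹ ∧
      x ∈ Xs (n + 2) ∧ (k = 1 ∨ k = -1) ∧ f (n + 1) (vv w j a b) = u * x ^ k * u⁻¹ ∧
      Mk (n + 2) (x ^ k) j (D.colL A) (D.colL B) := by
  obtain ⟨n, h0, a, b, hg, ha, h1, h2, hb⟩ := main1 D A B hAB
  obtain ⟨v1, v2, v3, v4, -⟩ := (D.sq.st (n + 1)).wr a b _ hg j
  have hm := D.sq.mka (n + 1) a b _ j hg
  obtain ⟨x, hx, u, k, hV⟩ := (D.sq.st (n + 2)).short _ v1 v2
  -- `k` is a unit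
  obtain ⟨hx1, hx2⟩ := (D.sq.st (n + 2)).prim x hx
  have hk : k = 1 ∨ k = -1 := by
    obtain ⟨t, ht⟩ := v3 (u * x * u⁻¹) (by rw [hV]; group)
    rw [hV] at ht
    have e1 : (u * x ^ k * u⁻¹) ^ t = u * x ^ (k * t) * u⁻¹ := by
      rw [zpow_mul, conj_zpow]
    rw [e1] at ht
    have e2 : x = x ^ (k * t) := mul_left_cancel (mul_right_cancel ht)
    have e3 : x ^ (k * t - 1) = 1 := by
      rw [zpow_sub, ← e2, zpow_one, mul_inv_cancel]
    have e4 : k * t - 1 = 0 := by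
      by_contra h
      exact hx1 (isOfFinOrder_iff_zpow_eq_one.2 ⟨_, h, e3⟩)
    exact Int.eq_one_or_neg_one_of_mul_eq_one (show k * t = 1 by omega)
  have hcA : col (n + 1 + 1) (f (n + 1) a) = D.colL A := by
    rw [← D.colL_eq (MonoidHom.isOfFinOrder _ ha), D.cmp, h1, D.colL_conj]
  have hcB : col (n + 1 + 1) (f (n + 1) b) = D.colL B := by
    rw [← D.colL_eq hb, D.cmp, h2, D.colL_conj]
  rw [hcA, hcB, hV] at hm
  have hm2 := D.sq.mkc _ u⁻¹ _ _ _ _ hm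
  rw [show u⁻¹ * (u * x ^ k * u⁻¹) * u⁻¹⁻¹ = x ^ k by group] at hm2
  exact ⟨n, h0, a, b, x, u, k, hg, h1, h2, hx, hk, hV, hm2⟩

/-- the limit of the extensions -/
theorem exists_limE (D : LD w R0 N Φ ε G H f col Mk Xs L π)
    (hE : ∀ n, ExtP (exo N ε (Mk n)) (Xs n) (f n)) {Z : Type} [CommGroup Z]
    (κ : Fin r → C → C → Z) :
    ∃ (E : Type) (_ : Group E) (φ : E →* L) (ι : Z →* E), Function.Surjective φ ∧
      Function.Injective ι ∧ (∀ z a, a * ι z = ι z * a) ∧ (∀ a, φ a = 1 ↔ ∃ z, ι z = a) ∧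
      ∀ (j : Fin r) (x y : E), w.δ j = 1 → φ x * φ y ≠ φ y * φ x →
        vv w j x y ^ ε j (D.colL (φ x)) (D.colL (φ y)) =
          ι (κ j (D.colL (φ x)) (D.colL (φ y))) := by
  obtain ⟨e, F, S⟩ := exists_SE D.sq hE (valM Mk κ)
  obtain ⟨E, iE, p, p1, p2, p3⟩ := exists_lim F S.sur
  -- the map to `L`
  have hdies : ∀ (n : ℕ) (a : (e n).A), Dies F n a → Dies f n ((e n).φ a) := by
    intro n a h
    exact dies_map (fun n => (e n).φ) S.φF h
  have hker : (p 0).ker ≤ ((π 0).comp (e 0).φ).ker := by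
    intro a ha
    rw [MonoidHom.mem_ker] at ha ⊢
    exact dies_one D.cmp (hdies 0 a (p3 0 a ha))
  obtain ⟨φ, hφ0⟩ : ∃ φ : E →* L, ∀ a, φ (p 0 a) = π 0 ((e 0).φ a) :=
    ⟨(p 0).liftOfSurjective (p1 0) ⟨(π 0).comp (e 0).φ, hker⟩, fun g =>
      MonoidHom.liftOfRightInverse_comp_apply _ _ (Function.rightInverse_surjInv (p1 0))
        ⟨(π 0).comp (e 0).φ, hker⟩ g⟩
  have hφ : ∀ n a, φ (p n a) = π n ((e n).φ a) := by
    intro n
    induction n with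
    | zero => exact hφ0
    | succ n ih =>
      intro a
      obtain ⟨a, rfl⟩ := S.sur n a
      rw [p2, ih, S.φF, D.cmp]
  have hι : ∀ n z, p n ((e n).ι z) = p 0 ((e 0).ι z) := by
    intro n
    induction n with
    | zero => exact fun _ => rfl
    | succ n ih =>
      intro z
      rw [← S.ιF, p2, ih]
  let ι : Z →* E := (p 0).comp (e 0).ι
  have hι' : ∀ n z, p n ((e n).ι z) = ι z := hι
  have hcen : ∀ z a, a * ι z = ι z * a := by
    intro z a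
    obtain ⟨a, rfl⟩ := p1 0 a
    show p 0 a * p 0 ((e 0).ι z) = p 0 ((e 0).ι z) * p 0 a
    rw [← map_mul, (e 0).cen, map_mul]
  have hk1 : ∀ (n : ℕ) (g : G n), Dies f n g → ∀ a : (e n).A, (e n).φ a = g →
      ∃ z, p n a = ι z := by
    intro n g h
    induction h with
    | one n =>
      intro a ha
      obtain ⟨z, rfl⟩ := ((e n).ker a).1 ha
      exact ⟨z, hι' n z⟩
    | step n g _ ih =>
      intro a ha
      obtain ⟨z, hz⟩ := ih (F n a) (by rw [S.φF, ha])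
      exact ⟨z, by rw [← p2, hz]⟩
  have hk2 : ∀ (n : ℕ) (a : (e n).A), Dies F n a → ∀ z, a = (e n).ι z → z = 1 := by
    intro n a h
    exact dies_inj (fun n => (e n).ι) S.ιF (fun n => (e n).inj) h
  have hsur : Function.Surjective φ := by
    intro y
    obtain ⟨g, rfl⟩ := D.sur 0 y
    obtain ⟨a, rfl⟩ := (e 0).sur g
    exact ⟨p 0 a, hφ0 a⟩
  have hinj : Function.Injective ι := by
    rw [injective_iff_map_eq_one]
    intro z hz
    exact hk2 0 _ (p3 0 _ hz) z rfl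
  have hkr : ∀ a, φ a = 1 ↔ ∃ z, ι z = a := by
    intro a
    obtain ⟨a, rfl⟩ := p1 0 a
    constructor
    · intro h
      rw [hφ0] at h
      obtain ⟨z, hz⟩ := hk1 0 _ (D.ker 0 _ h) a rfl
      exact ⟨z, hz.symm⟩
    · rintro ⟨z, hz⟩
      rw [← hz]
      show φ (p 0 ((e 0).ι z)) = 1
      rw [hφ0, (e 0).φι, map_one]
  refine ⟨E, iE, φ, ι, hsur, hinj, hcen, hkr, ?_⟩
  intro j X Y hj hXY
  obtain ⟨n, h0, a, b, x, u, k, hg, ha, hb, hx, hk, hV, hm⟩ := main2 D j (φ X) (φ Y) hXY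
  obtain ⟨a, rfl⟩ := (e (n + 1)).sur a
  obtain ⟨b, rfl⟩ := (e (n + 1)).sur b
  obtain ⟨u, rfl⟩ := (e (n + 2)).sur u
  obtain ⟨h0, rfl⟩ := hsur h0
  have hS1 := S.vvS (n + 1) a b j hj hg
  have hS2 := (e (n + 2)).Sc _ u⁻¹ _ hS1
  have hφ2 : (e (n + 2)).φ (u⁻¹ * F (n + 1) (vv w j a b) * u⁻¹⁻¹) = x ^ k := by
    rw [map_mul, map_mul, S.φF, map_vv, hV]
    simp only [map_inv]
    group
  -- the value
  have key : (F (n + 2) (u⁻¹ * F (n + 1) (vv w j a b) * u⁻¹⁻¹)) ^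
      ε j (D.colL (φ X)) (D.colL (φ Y)) =
      (e (n + 3)).ι (κ j (D.colL (φ X)) (D.colL (φ Y))) := by
    have hm1 : Mk (n + 2) ((e (n + 2)).φ (u⁻¹ * F (n + 1) (vv w j a b) * u⁻¹⁻¹)) j
        (D.colL (φ X)) (D.colL (φ Y)) := by rw [hφ2]; exact hm
    have hv := valM_eq (κ := κ) D.sq hm1
    rcases hk with rfl | rfl
    · rw [zpow_one] at hφ2
      have h1 := S.pos (n + 2) _ j hS2 (by rw [hφ2]; exact hx)
      rw [hv] at h1
      rw [LD.exo_eq D (n + 2) _ j _ _ (Or.inl hm1)] at h1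
      exact h1
    · have h1 := S.neg (n + 2) _ j hS2 (by rw [hφ2, zpow_neg, zpow_one, inv_inv]; exact hx)
      rw [hv] at h1
      rw [LD.exo_eq D (n + 2) _ j _ _ (Or.inr (by rw [inv_inv]; exact hm1))] at h1
      exact h1
  have h3 : p (n + 3) (F (n + 2) (u⁻¹ * F (n + 1) (vv w j a b) * u⁻¹⁻¹)) =
      (p (n + 2) u)⁻¹ * vv w j (p (n + 1) a) (p (n + 1) b) * p (n + 2) u := by
    rw [p2, map_mul, map_mul, p2, map_vv, inv_inv, map_inv]
  have h4 : vv w j (p (n + 1) a) (p (n + 1) b) = h0 * vv w j X Y * h0⁻¹ := by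
    rw [← conj_vv]
    have q1 : φ (p (n + 1) a) = φ (h0 * X * h0⁻¹) := by
      rw [hφ, ha]
      simp
    have q2 : φ (p (n + 1) b) = φ (h0 * Y * h0⁻¹) := by
      rw [hφ, hb]
      simp
    have hd : ∀ s t : E, φ s = φ t → ∃ z, s = t * ι z := by
      intro s t h
      obtain ⟨z, hz⟩ := (hkr (t⁻¹ * s)).1 (by rw [map_mul, map_inv, h, inv_mul_cancel])
      exact ⟨z, by rw [hz, mul_inv_cancel_left]⟩
    obtain ⟨z1, hz1⟩ := hd _ _ q1
    obtain ⟨z2, hz2⟩ := hd _ _ q2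
    rw [hz1, hz2, vv_cen w j hj _ _ _ _ (hcen z1) (hcen z2)]
  have h5 := congrArg (p (n + 3)) key
  rw [map_pow, h3, h4, hι'] at h5
  generalize ε j (D.colL (φ X)) (D.colL (φ Y)) = m at h5 ⊢
  have h6 : (p (n + 2) u)⁻¹ * (h0 * vv w j X Y * h0⁻¹) * p (n + 2) u =
      ((p (n + 2) u)⁻¹ * h0) * vv w j X Y * ((p (n + 2) u)⁻¹ * h0)⁻¹ := by group
  rw [h6, conj_pow] at h5
  have h7 : vv w j X Y ^ m = ((p (n + 2) u)⁻¹ * h0)⁻¹ *
      (((p (n + 2) u)⁻¹ * h0) * vv w j X Y ^ m * ((p (n + 2) u)⁻¹ * h0)⁻¹) *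
      ((p (n + 2) u)⁻¹ * h0) := by group
  rw [h7, h5, hcen, mul_assoc, inv_mul_cancel, mul_one]

end Pool.Agent.H320.Rad
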