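import Pool.Agent.H320.Rad.LimE

/-!
# The words and the group with the laws (helper320)
-/

set_option autoImplicit false

namespace Pool.Agent.H320.Rad

open Pool.Agent.TH54.BU Pool.Agent.Y45.MON Pool.Agent.Y872.MON

/-- the limit theorem with central extensions -/
theorem monE (r : ℕ) (δ : Fin r → ℕ) (hδ : ∀ j, δ j = 1 ∨ δ j = 2) :
    ∃ (w : WP r) (n0 : ℕ), w.δ = δ ∧ 3 ≤ n0 ∧
    ∀ N : ℕ, N ≠ 1 → (∀ q : ℕ, q.Prime → q ∣ N → n0 ≤ q) →
      ∀ (C : Type) (_ : Inhabited C) (Φ : Fin r → C → C → C) (ε : Fin r → C → C → ℕ),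
      (∀ j c c', ε j c c' ∣ N ∧ ε j c c' ≠ 1) →
      ∃ (L : Type) (_ : Group L) (col : L → C) (rk : L → ℕ), MonP w N Φ ε L col rk ∧
        ∀ (Z : Type) (_ : CommGroup Z) (κ : Fin r → C → C → Z),
          ∃ (E : Type) (_ : Group E) (φ : E →* L) (ι : Z →* E), Function.Surjective φ ∧
            Function.Injective ι ∧ (∀ z a, a * ι z = ι z * a) ∧ (∀ a, φ a = 1 ↔ ∃ z, ι z = a) ∧
            ∀ (j : Fin r) (x y : E), w.δ j = 1 → φ x * φ y ≠ φ y * φ x →
              vv w j x y ^ ε j (col (φ x)) (col (φ y)) = ι (κ j (col (φ x)) (col (φ y))) := by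
  obtain ⟨w, R0, n0, h3, h4, h5, h6⟩ := seqE r δ hδ
  refine ⟨w, n0, h3, h5, ?_⟩
  intro N hN hq C iC Φ ε hε
  obtain ⟨G, iG, H, f, col, Mk, Xs, hS, hE⟩ := h6 N hN hq C iC Φ ε hε
  obtain ⟨L, iL, π, p1, p2, p3⟩ := exists_lim f (fun n => (hS.st n).surj)
  let D : LD w R0 N Φ ε G H f col Mk Xs L π :=
    ⟨hS, h4, fun q hq1 hq2 => h5.trans (hq q hq1 hq2), hε, p1, p2, p3⟩
  refine ⟨L, iL, D.colL, rk π, D.monP, ?_⟩
  intro Z iZ κ
  exact exists_limE D hE κ

/-- the nested words -/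
def ssw (w : WP 3) {G : Type} [Group G] (x y : G) : ℕ → G
  | 0 => vv w 0 x y
  | i + 1 => vv w 1 (ssw w x y i) x

/-- the words `w_i` -/
def www (w : WP 3) (N : ℕ) {G : Type} [Group G] (i : ℕ) (x y : G) : G :=
  vv w 2 (ssw w x y i) x ^ N

theorem map_ssw (w : WP 3) {G G' : Type} [Group G] [Group G'] (φ : G →* G') (x y : G) (i : ℕ) :
    φ (ssw w x y i) = ssw w (φ x) (φ y) i := by
  induction i with
  | zero => exact map_vv w φ 0 x y
  | succ i ih =>
    show φ (vv w 1 (ssw w x y i) x) = vv w 1 (ssw w (φ x) (φ y) i) (φ x)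
    rw [map_vv, ih]

theorem map_www (w : WP 3) (N : ℕ) {G G' : Type} [Group G] [Group G'] (φ : G →* G') (i : ℕ)
    (x y : G) : φ (www w N i x y) = www w N i (φ x) (φ y) := by
  unfold www
  rw [map_pow, map_vv, map_ssw]

/-- the group with the laws -/
theorem exists_law_group : ∃ (w : WP 3) (N : ℕ) (E : Type) (_ : Group E),
    (∀ (i : ℕ) (x y : E), www w N i x y = www w N (i + 1) x y ^ (i + 1)) ∧
    (∀ (i : ℕ) (x y t : E), www w N i x y * t = t * www w N i x y) ∧
    ∃ x y : E, x * y ≠ y * x ∧ ∀ i, www w N i x y ≠ 1 := by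
  obtain ⟨w, n0, hw, hn0, h⟩ := monE 3 (fun _ => 1) (fun _ => Or.inl rfl)
  obtain ⟨N, hN1, hN⟩ := Nat.exists_infinite_primes n0
  have hδ : ∀ j, w.δ j = 1 := fun j => by rw [hw]
  have hN0 : N ≠ 1 := hN.one_lt.ne'
  obtain ⟨L, iL, col, rk, M, hE⟩ := h N hN0 (fun q hq hd => by
      rwa [(Nat.prime_dvd_prime_iff_eq hq hN).1 hd]) ℕ ⟨0⟩
    (fun j c _ => if j = 0 then 0 else c + 1) (fun _ _ _ => N) (fun _ _ _ => ⟨dvd_rfl, hN0⟩)
  obtain ⟨E, iE, φ, ι, hsur, hinj, hcen, hker, hval⟩ := hE (Multiplicative ℚ) inferInstance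
    (fun _ c _ => Multiplicative.ofAdd (1 / (c.factorial : ℚ)))
  -- commuting images
  have hc : ∀ (i : ℕ) (x y : E), φ x * φ y = φ y * φ x → www w N i x y = 1 := by
    intro i x y hxy
    have h0 : ∃ z, ι z = ssw w x y 0 := by
      apply (hker _).1
      show φ (vv w 0 x y) = 1
      rw [map_vv, vv_comm w 0 _ _ hxy, hδ, pow_one, mul_inv_cancel]
    have h1 : ∀ i, ∃ z, ι z = ssw w x y i := by
      intro i
      induction i with
      | zero => exact h0
      | succ i ih =>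
        obtain ⟨z, hz⟩ := ih
        refine ⟨1, ?_⟩
        show ι 1 = vv w 1 (ssw w x y i) x
        rw [← hz, vv_comm w 1 _ _ (hcen z x).symm, hδ, pow_one, mul_inv_cancel, map_one]
    obtain ⟨z, hz⟩ := h1 i
    unfold www
    rw [← hz, vv_comm w 2 _ _ (hcen z x).symm, hδ, pow_one, mul_inv_cancel, one_pow]
  -- other images
  have hnc : ∀ (x y : L), x * y ≠ y * x → ∀ i, ssw w x y i * x ≠ x * ssw w x y i ∧
      col (ssw w x y i) = i := by
    intro x y hxy i
    have hx : x ≠ 1 := by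
      rintro rfl
      exact hxy (by rw [one_mul, mul_one])
    have hne : ∀ (j : Fin 3) (a b : L), a * b ≠ b * a → vv w j a b ≠ 1 := by
      intro j a b hab h
      have := M.ord j a b hab
      rw [h, orderOf_one] at this
      exact hN0 this.symm
    induction i with
    | zero =>
      refine ⟨?_, ?_⟩
      · intro h
        have h1 := (M.rk1 0 x y hxy).1
        have h2 := M.rkc _ _ (hne 0 x y hxy) hx h
        omega
      · have := M.clr 0 x y hxy
        rw [if_pos rfl] at this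
        exact this
    | succ i ih =>
      refine ⟨?_, ?_⟩
      · intro h
        have h1 := (M.rk1 1 _ x ih.1).2
        have h2 := M.rkc _ _ (hne 1 _ x ih.1) hx h
        omega
      · have := M.clr 1 _ x ih.1
        rw [ih.2, if_neg (by decide)] at this
        exact this
  have hv : ∀ (i : ℕ) (x y : E), φ x * φ y ≠ φ y * φ x →
      www w N i x y = ι (Multiplicative.ofAdd (1 / (i.factorial : ℚ))) := by
    intro i x y hxy
    obtain ⟨h1, h2⟩ := hnc (φ x) (φ y) hxy i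
    have h3 : φ (ssw w x y i) = ssw w (φ x) (φ y) i := map_ssw w φ x y i
    have h4 := hval 2 (ssw w x y i) x (hδ 2) (by rw [h3]; exact h1)
    rw [h3, h2] at h4
    exact h4
  refine ⟨w, N, E, iE, ?_, ?_, ?_⟩
  · intro i x y
    by_cases hxy : φ x * φ y = φ y * φ x
    · rw [hc i x y hxy, hc (i + 1) x y hxy, one_pow]
    · rw [hv i x y hxy, hv (i + 1) x y hxy, ← map_pow, ← ofAdd_nsmul]
      congr 2
      rw [nsmul_eq_mul, Nat.factorial_succ]
      have h1 : (i.factorial : ℚ) ≠ 0 := by exact_mod_cast i.factorial_ne_zero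
      have h2 : ((i + 1 : ℕ) : ℚ) ≠ 0 := by exact_mod_cast Nat.succ_ne_zero i
      rw [Nat.cast_mul]
      field_simp
  · intro i x y t
    by_cases hxy : φ x * φ y = φ y * φ x
    · rw [hc i x y hxy, one_mul, mul_one]
    · rw [hv i x y hxy]
      exact (hcen _ t).symm
  · obtain ⟨x, y, -, hxy⟩ := M.gen
    obtain ⟨x, rfl⟩ := hsur x
    obtain ⟨y, rfl⟩ := hsur y
    refine ⟨x, y, fun h => hxy (by rw [← map_mul, h, map_mul]), fun i => ?_⟩
    rw [hv i x y hxy]
    intro h1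
    have h2 := (injective_iff_map_eq_one ι).1 hinj _ h1
    have h3 : (1 / (i.factorial : ℚ)) = 0 := h2
    have h4 : (i.factorial : ℚ) ≠ 0 := by exact_mod_cast i.factorial_ne_zero
    exact (one_div_ne_zero h4) h3

end Pool.Agent.H320.Rad
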